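import Pool.Agent.Helper76.SE.Block
import Pool.Agent.Helper10.SQ.A7

/-! SE3: all blocks from `10 ^ k0` on. -/

set_option autoImplicit false

namespace Pool.Agent.Helper76.SE

open Finset Pool.Agent.Helper10 Pool.Agent.Helper10.P5 Pool.Agent.Helper10.P4 Pool.Agent.Helper10.SQ

/-- geometric series of the block bounds -/
lemma bulk_geo (η N : ℝ) (hη : 0 < η) (k0 M : ℕ) :
    ∑ k ∈ Ico k0 M, (10 : ℝ) ^ (N - η * k) ≤ (1 - (10 : ℝ) ^ (-η))⁻¹ * (10 : ℝ) ^ (N - η * k0) := by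
  set r : ℝ := (10 : ℝ) ^ (-η) with hr
  have hr0 : 0 < r := by positivity
  have hr1 : r < 1 := Real.rpow_lt_one_of_one_lt_of_neg (by norm_num) (by linarith)
  rw [Finset.sum_Ico_eq_sum_range]
  have h1 : ∀ i ∈ range (M - k0), (10 : ℝ) ^ (N - η * ((k0 + i : ℕ) : ℝ)) =
      (10 : ℝ) ^ (N - η * k0) * r ^ i := by
    intro i _
    rw [hr, ← Real.rpow_natCast, ← Real.rpow_mul (by norm_num), ← Real.rpow_add (by norm_num)]
    congr 1
    push_cast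
    ring
  rw [Finset.sum_congr rfl h1, ← Finset.mul_sum, mul_comm]
  apply mul_le_mul_of_nonneg_right _ (by positivity)
  rw [← tsum_geometric_of_lt_one hr0.le hr1]
  exact (summable_geometric_of_lt_one hr0.le hr1).sum_le_tsum _ (fun i _ => by positivity)

/-- Bulk: `block` for `2 k ≤ n`, `sqA7` (with `min ε (1/4)`) for `2 k > n`, geometric series. -/
theorem bulk (ε : ℝ) (hε : 0 < ε) : ∃ η C δ : ℝ, 0 < η ∧ 0 < C ∧ 0 < δ ∧ ∃ n0 : ℕ, ∀ n : ℕ, n0 ≤ n → ∀ k0 D : ℕ,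
    (D : ℝ) ≤ (10 : ℝ) ^ ((1 - ε) * (n : ℝ)) → ∀ a : ℕ → ℕ,
    ∑ d ∈ (Ico (10 ^ k0) (D + 1)).filter (fun d : ℕ => d.Coprime 10), ((cl n (d ^ 2) (a d) : ℕ) : ℝ) ≤
      C * ((10 : ℝ) ^ ((n : ℝ) - η * k0) + (10 : ℝ) ^ ((1 - δ) * (n : ℝ))) := by
  obtain ⟨η, C0, hη, hC0, hblock⟩ := block
  set e := min ε (1 / 4) with he
  have he0 : 0 < e := lt_min hε (by norm_num)
  have he1 : e ≤ 1 / 4 := min_le_right _ _
  have heε : e ≤ ε := min_le_left _ _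
  obtain ⟨δ, hδ, n1, h7⟩ := sqA7 e he0
  have hr1 : (10 : ℝ) ^ (-η) < 1 := Real.rpow_lt_one_of_one_lt_of_neg (by norm_num) (by linarith)
  have hg : 0 < (1 - (10 : ℝ) ^ (-η))⁻¹ := inv_pos.mpr (by linarith)
  have hl : 0 < Real.log 10 := Real.log_pos (by norm_num)
  have hc : 0 < 2 / (δ * Real.log 10) := by positivity
  refine ⟨η, C0 * (1 - (10 : ℝ) ^ (-η))⁻¹ + 2 / (δ * Real.log 10), δ / 2, hη, by positivity,
    by linarith, n1 + 1, fun n hn k0 D hD a => ?_⟩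
  have hn1 : n1 ≤ n := by omega
  have hn0 : 1 ≤ n := by omega
  have hnR : (0 : ℝ) < n := by exact_mod_cast hn0
  have hlog : ∀ k : ℕ, 10 ^ k ≤ D → (k : ℝ) ≤ (1 - ε) * n := by
    intro k hk
    have h1 : (10 : ℝ) ^ (k : ℝ) ≤ (10 : ℝ) ^ ((1 - ε) * (n : ℝ)) := by
      rw [Real.rpow_natCast]
      refine le_trans ?_ hD
      exact_mod_cast hk
    exact (Real.rpow_le_rpow_left_iff (by norm_num)).mp h1
  set S := (Ico (10 ^ k0) (D + 1)).filter (fun d : ℕ => d.Coprime 10) with hS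
  set T := (Ico k0 n).filter (fun k => 10 ^ k ≤ D) with hT
  have hmem : ∀ d ∈ S, 10 ^ k0 ≤ d ∧ d ≤ D ∧ d.Coprime 10 := by
    intro d hd
    rw [hS, Finset.mem_filter, Finset.mem_Ico] at hd
    exact ⟨hd.1.1, by omega, hd.2⟩
  have hd0 : ∀ d ∈ S, d ≠ 0 := by
    intro d hd
    have h1 := (hmem d hd).1
    have : 1 ≤ 10 ^ k0 := Nat.one_le_pow _ _ (by norm_num)
    omega
  have hmaps : ∀ d ∈ S, Nat.log 10 d ∈ T := by
    intro d hd
    obtain ⟨h1, h2, _⟩ := hmem d hd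
    have h3 : 10 ^ Nat.log 10 d ≤ d := Nat.pow_log_le_self 10 (hd0 d hd)
    have h4 : k0 ≤ Nat.log 10 d := Nat.le_log_of_pow_le (by norm_num) h1
    have h5 := hlog _ (h3.trans h2)
    rw [hT, Finset.mem_filter, Finset.mem_Ico]
    refine ⟨⟨h4, ?_⟩, h3.trans h2⟩
    have h6 : ((Nat.log 10 d : ℕ) : ℝ) < n := by nlinarith
    exact_mod_cast h6
  rw [← Finset.sum_fiberwise_of_maps_to hmaps]
  have h1 : ∀ k ∈ T, ∑ d ∈ S with Nat.log 10 d = k, ((cl n (d ^ 2) (a d) : ℕ) : ℝ) ≤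
      C0 * (10 : ℝ) ^ ((n : ℝ) - η * k) + (10 : ℝ) ^ ((1 - δ) * (n : ℝ)) := by
    intro k hk
    rw [hT, Finset.mem_filter] at hk
    obtain ⟨_, hk2⟩ := hk
    have hkε := hlog k hk2
    have hsub : ∑ d ∈ S with Nat.log 10 d = k, ((cl n (d ^ 2) (a d) : ℕ) : ℝ) ≤
        ∑ d ∈ (Ico (10 ^ k) (10 ^ (k + 1))).filter (fun d : ℕ => d.Coprime 10),
          ((cl n (d ^ 2) (a d) : ℕ) : ℝ) := by
      apply Finset.sum_le_sum_of_subset_of_nonneg
      · intro d hd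
        rw [Finset.mem_filter] at hd
        rw [Finset.mem_filter, Finset.mem_Ico]
        refine ⟨⟨?_, ?_⟩, (hmem d hd.1).2.2⟩
        · rw [← hd.2]
          exact Nat.pow_log_le_self 10 (hd0 d hd.1)
        · rw [← hd.2]
          exact Nat.lt_pow_succ_log_self (by norm_num) d
      · intro d _ _
        exact Nat.cast_nonneg _
    refine hsub.trans ?_
    have p1 : 0 ≤ C0 * (10 : ℝ) ^ ((n : ℝ) - η * k) := by positivity
    have p2 : 0 ≤ (10 : ℝ) ^ ((1 - δ) * (n : ℝ)) := by positivity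
    rcases Nat.lt_or_ge n (2 * k) with hlt | hge
    · have hltR : (n : ℝ) < 2 * k := by exact_mod_cast hlt
      have q1 : e * n ≤ k := by nlinarith
      have q2 : (k : ℝ) ≤ (1 - e) * n := by nlinarith
      have := h7 n k hn1 q1 q2 a
      linarith
    · have := hblock n k hge a
      linarith
  refine (Finset.sum_le_sum h1).trans ?_
  rw [Finset.sum_add_distrib, ← Finset.mul_sum, Finset.sum_const, nsmul_eq_mul]
  have s1 : ∑ k ∈ T, (10 : ℝ) ^ ((n : ℝ) - η * k) ≤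
      (1 - (10 : ℝ) ^ (-η))⁻¹ * (10 : ℝ) ^ ((n : ℝ) - η * k0) := by
    refine le_trans ?_ (bulk_geo η n hη k0 n)
    exact Finset.sum_le_sum_of_subset_of_nonneg (Finset.filter_subset _ _) (fun k _ _ => by positivity)
  have s2 : (T.card : ℝ) ≤ n := by
    have : T.card ≤ n := by
      refine le_trans (Finset.card_filter_le _ _) ?_
      rw [Nat.card_Ico]
      omega
    exact_mod_cast this
  have s3 : (n : ℝ) * (10 : ℝ) ^ ((1 - δ) * (n : ℝ)) ≤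
      2 / (δ * Real.log 10) * (10 : ℝ) ^ ((1 - δ / 2) * (n : ℝ)) := by
    have t1 : (10 : ℝ) ^ ((1 - δ / 2) * (n : ℝ)) =
        (10 : ℝ) ^ ((1 - δ) * (n : ℝ)) * (10 : ℝ) ^ (δ / 2 * (n : ℝ)) := by
      rw [← Real.rpow_add (by norm_num)]
      congr 1
      ring
    have t2 : δ * Real.log 10 / 2 * n ≤ (10 : ℝ) ^ (δ / 2 * (n : ℝ)) := by
      rw [Real.rpow_def_of_pos (by norm_num)]
      have := Real.add_one_le_exp (Real.log 10 * (δ / 2 * (n : ℝ)))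
      nlinarith
    have t3 : (n : ℝ) ≤ 2 / (δ * Real.log 10) * (10 : ℝ) ^ (δ / 2 * (n : ℝ)) := by
      rw [div_mul_eq_mul_div, le_div_iff₀ (by positivity)]
      nlinarith
    rw [t1]
    have t4 : 0 ≤ (10 : ℝ) ^ ((1 - δ) * (n : ℝ)) := by positivity
    have := mul_le_mul_of_nonneg_right t3 t4
    linarith
  have p1 : 0 ≤ (10 : ℝ) ^ ((1 - δ) * (n : ℝ)) := by positivity
  have p2 : 0 ≤ (10 : ℝ) ^ ((1 - δ / 2) * (n : ℝ)) := by positivity
  have p3 : 0 ≤ (10 : ℝ) ^ ((n : ℝ) - η * k0) := by positivity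
  have s4 : (T.card : ℝ) * (10 : ℝ) ^ ((1 - δ) * (n : ℝ)) ≤
      2 / (δ * Real.log 10) * (10 : ℝ) ^ ((1 - δ / 2) * (n : ℝ)) :=
    (mul_le_mul_of_nonneg_right s2 p1).trans s3
  have s5 := mul_le_mul_of_nonneg_left s1 hC0.le
  have g1 : 0 ≤ C0 * (1 - (10 : ℝ) ^ (-η))⁻¹ := by positivity
  have g2 : 0 ≤ 2 / (δ * Real.log 10) * (10 : ℝ) ^ ((n : ℝ) - η * k0) := mul_nonneg hc.le p3
  have g3 : 0 ≤ C0 * (1 - (10 : ℝ) ^ (-η))⁻¹ * (10 : ℝ) ^ ((1 - δ / 2) * (n : ℝ)) :=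
    mul_nonneg g1 p2
  nlinarith

end Pool.Agent.Helper76.SE
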